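import Pool.Agent.H49.TRO.S1

/-! helper89. Board `tro`: modules KIA, SWP, KIB. -/

set_option autoImplicit false

namespace Pool.TRO

open MvPolynomial Pool.FOS Pool.TRN

theorem t_kia (h1 : PELStmt) : KIAStmt := by
  classical
  intro m p D hD
  obtain ⟨cnt, hcnt⟩ : ∃ cnt : ℕ → ℕ,
      cnt = fun v => (D.filter fun b => p * b.1 + b.2 = v).card := ⟨_, rfl⟩
  obtain ⟨R, hR⟩ : ∃ R : Finset ℕ, R = D.image fun a => p * a.1 + a.2 := ⟨_, rfl⟩
  -- a row with `u` points is in an interval of `m + 1 - u` integers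
  have key : ∀ u : ℕ, 1 ≤ u → ∃ α : ℤ, ∀ v ∈ R, u ≤ cnt v → α ≤ (v : ℤ) ∧ (v : ℤ) + u ≤ α + m := by
    intro u hu
    obtain ⟨α, hα⟩ := hD u hu
    refine ⟨α, fun v _ hv => ?_⟩
    rw [hcnt] at hv
    have hne : (D.filter fun b => p * b.1 + b.2 = v).Nonempty := by
      rw [← Finset.card_pos]
      exact lt_of_lt_of_le hu hv
    obtain ⟨a, ha, ha'⟩ := Finset.exists_min_image _ (fun b : ℕ × ℕ => b.1) hne
    obtain ⟨b, hb, hb'⟩ := Finset.exists_max_image _ (fun b : ℕ × ℕ => b.1) hne
    have hc : (D.filter fun b => p * b.1 + b.2 = v).card ≤ (Finset.Icc a.1 b.1).card := by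
      refine Finset.card_le_card_of_injOn Prod.fst ?_ ?_
      · intro e he
        rw [Finset.mem_coe] at he
        have e1 := ha' e he
        have e2 := hb' e he
        simp only [Finset.coe_Icc, Set.mem_Icc]
        exact ⟨e1, e2⟩
      · intro e he e' he' hee
        rw [Finset.mem_coe, Finset.mem_filter] at he he'
        have e3 : e.1 = e'.1 := hee
        have e4 := he.2
        rw [e3] at e4
        have e5 := he'.2
        exact Prod.ext e3 (by omega)
    rw [Nat.card_Icc] at hc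
    rw [Finset.mem_filter] at ha hb
    have h2 := hα a ha.1 b hb.1 (ha.2.trans hb.2.symm) (by
      have h3 : u ≤ (D.filter fun b => p * b.1 + b.2 = v).card := hv
      omega)
    have h3 : ((v : ℕ) : ℤ) = (p : ℤ) * a.1 + a.2 := by
      rw [← ha.2]
      push_cast
      ring
    rw [h3]
    exact h2
  obtain ⟨f, hf⟩ : ∃ f : ℕ → ℕ, f = fun v =>
      (R.filter fun w => cnt v < cnt w ∨ (cnt v = cnt w ∧ w < v)).card := ⟨_, rfl⟩
  have hmono : ∀ v ∈ R, ∀ w ∈ R, (cnt v < cnt w ∨ (cnt v = cnt w ∧ w < v)) → f w < f v := by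
    intro v _ w hw hvw
    rw [hf]
    refine Finset.card_lt_card ?_
    rw [Finset.ssubset_iff_of_subset]
    · refine ⟨w, ?_, ?_⟩
      · rw [Finset.mem_filter]
        exact ⟨hw, hvw⟩
      · rw [Finset.mem_filter]
        rintro ⟨_, h | ⟨_, h⟩⟩
        · exact lt_irrefl _ h
        · exact lt_irrefl _ h
    · intro z hz
      rw [Finset.mem_filter] at hz ⊢
      refine ⟨hz.1, ?_⟩
      have h2 := hz.2
      omega
  refine h1 m p D f (fun a ha => ?_) (fun a ha b hb hab => ?_)
  · have hv : p * a.1 + a.2 ∈ R := by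
      rw [hR]
      exact Finset.mem_image_of_mem _ ha
    obtain ⟨v, hvd⟩ : ∃ v, v = p * a.1 + a.2 := ⟨_, rfl⟩
    rw [← hvd] at hv ⊢
    have hcv : (D.filter fun b => p * b.1 + b.2 = v).card = cnt v := by rw [hcnt]
    rw [hcv]
    have hu : 1 ≤ cnt v := by
      rw [← hcv, Nat.one_le_iff_ne_zero, ← Nat.pos_iff_ne_zero, Finset.card_pos]
      exact ⟨a, Finset.mem_filter.2 ⟨ha, hvd.symm⟩⟩
    obtain ⟨α, hα⟩ := key (cnt v) hu
    have h2 := hα v hv le_rfl
    -- the rows before `v` and `v`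
    have h3 : (insert v (R.filter fun w => cnt v < cnt w ∨ (cnt v = cnt w ∧ w < v))).card ≤
        (Finset.Icc α (α + m - cnt v)).card := by
      refine Finset.card_le_card_of_injOn (fun w : ℕ => (w : ℤ)) ?_ ?_
      · intro w hw
        rw [Finset.mem_coe, Finset.mem_insert, Finset.mem_filter] at hw
        simp only [Finset.coe_Icc, Set.mem_Icc]
        rcases hw with rfl | ⟨hw1, hw2⟩
        · exact ⟨h2.1, by linarith [h2.2]⟩
        · have h4 := hα w hw1 (by omega)
          exact ⟨h4.1, by linarith [h4.2]⟩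
      · intro w _ w' _ h
        have h' : ((w : ℕ) : ℤ) = (w' : ℤ) := h
        exact_mod_cast h'
    rw [Finset.card_insert_of_notMem, Int.card_Icc] at h3
    · have h4 : f v + 1 ≤ (α + m - cnt v + 1 - α).toNat := by
        rw [hf]
        exact h3
      have h5 := h2.1
      have h6 := h2.2
      omega
    · rw [Finset.mem_filter]
      rintro ⟨_, h | ⟨_, h⟩⟩
      · exact lt_irrefl _ h
      · exact lt_irrefl _ h
  · have ha' : p * a.1 + a.2 ∈ R := by
      rw [hR]
      exact Finset.mem_image_of_mem _ ha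
    have hb' : p * b.1 + b.2 ∈ R := by
      rw [hR]
      exact Finset.mem_image_of_mem _ hb
    by_contra hne
    have h2 : (cnt (p * a.1 + a.2) < cnt (p * b.1 + b.2) ∨
        (cnt (p * a.1 + a.2) = cnt (p * b.1 + b.2) ∧ p * b.1 + b.2 < p * a.1 + a.2)) ∨
        (cnt (p * b.1 + b.2) < cnt (p * a.1 + a.2) ∨
        (cnt (p * b.1 + b.2) = cnt (p * a.1 + a.2) ∧ p * a.1 + a.2 < p * b.1 + b.2)) := by
      omega
    rcases h2 with h2 | h2
    · exact absurd hab (hmono _ ha' _ hb' h2).ne'
    · exact absurd hab (hmono _ hb' _ ha' h2).ne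

theorem t_swp : SWPStmt := by
  classical
  rintro m s D ⟨P, hP⟩
  refine ⟨fun i => ((P i).2, (P i).1), fun c hc a ha => ?_⟩
  have h2 := hP (fun a => c (Prod.swap a)) (fun i q hq => ?_) (Prod.swap a)
    (Finset.mem_image_of_mem _ ha)
  · simpa using h2
  · rw [Finset.sum_image (fun x _ y _ h => Prod.swap_injective h)]
    have h3 := hc i (rename (Equiv.swap (0 : Fin 2) 1) q)
      (lt_of_le_of_lt (totalDegree_rename_le _ _) hq)
    rw [← h3]
    refine Finset.sum_congr rfl fun b _ => ?_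
    have h4 : ev b (rename (Equiv.swap (0 : Fin 2) 1) q) = ev (Prod.swap b) q := by
      unfold ev
      rw [eval_rename]
      refine congrArg (fun z => eval z q) ?_
      funext j
      fin_cases j <;> simp
    rw [h4]
    simp only [Prod.swap_swap, Prod.fst_swap, Prod.snd_swap]
    ring

theorem t_kib (h1 : SWPStmt) (h2 : KIAStmt) : KIBStmt := by
  classical
  intro m D hD
  refine h1 m 1 D (h2 m 0 _ fun u hu => ?_)
  obtain ⟨α, hα⟩ := hD u hu
  refine ⟨α, fun a ha b hb hab hu2 => ?_⟩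
  rw [Finset.mem_image] at ha hb
  obtain ⟨a', ha', rfl⟩ := ha
  obtain ⟨b', hb', rfl⟩ := hb
  simp only [Prod.fst_swap, Prod.snd_swap, zero_mul, zero_add] at hab hu2 ⊢
  have h3 := hα a' ha' b' hb' hab hu2
  constructor
  · have := h3.1
    push_cast
    linarith
  · have := h3.2
    push_cast
    linarith

end Pool.TRO
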