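import Pool.Agent.H49.TRO.S1
import Pool.Agent.H85.TRN.ST

/-! helper89. Board `tro`: module LWR. -/

set_option autoImplicit false

namespace Pool.TRO

open Finset Pool.TRN Pool.TRN.St

theorem t_lwr (h1 : PELStmt) (h2 : CUTStmt) (h3 : SBSStmt) : LWRStmt := by
  classical
  intro d g h c P hh hc
  have hLw : ∀ a ∈ Lw d g h c, a.1 < c ∧ g ≤ a.2 ∧ a.2 < g + h ∧
      a.1 + (d + 2) * (a.2 - g) < (d + 2) * h := by
    intro a ha
    rw [Lw, Finset.mem_filter, Finset.mem_product, Finset.mem_range, Finset.mem_range] at ha
    obtain ⟨⟨h4, h5⟩, h6, h7⟩ := ha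
    refine ⟨h4, h6, h5, ?_⟩
    obtain ⟨y, hy⟩ : ∃ y, a.2 = g + y := ⟨a.2 - g, by omega⟩
    rw [hy] at h7 ⊢
    have e1 : (d + 2) * (g + y) = (d + 2) * g + (d + 2) * y := by ring
    have e2 : (d + 2) * (g + h) = (d + 2) * g + (d + 2) * h := by ring
    rw [e1, e2] at h7
    rw [Nat.add_sub_cancel_left]
    omega
  have key : ∀ n p : ℕ, p + n = P →
      Cov (d + 1) (2 * n) ((Lw d g h c).filter fun a => aa d (d + 1 - h) p ≤ a.1) := by
    intro n
    induction n with
    | zero =>
      intro p hp
      have hpP : p = P := by omega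
      subst hpP
      have he : (Lw d g h c).filter (fun a => aa d (d + 1 - h) p ≤ a.1) = ∅ := by
        refine Finset.filter_eq_empty_iff.2 fun a ha => ?_
        have h4 := (hLw a ha).1
        omega
      rw [he]
      exact ⟨fun i => i.elim0, fun c _ a ha => absurd ha (Finset.notMem_empty a)⟩
    | succ n ih =>
      intro p hp
      have ih' := ih (p + 1) (by omega)
      set A := aa d (d + 1 - h) p with hA
      set A' := aa d (d + 1 - h) (p + 1) with hA'
      have hAp : p * (d + 2) ≤ A := by
        rw [hA, aa]
        have : p * (d + 2) ≤ p * (d + 2 + (d + 1 - h)) := Nat.mul_le_mul_left _ (by omega)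
        exact this.trans (Nat.le_add_right _ _)
      have hAA : A' = A + (d + 2 + (d + 1 - h) + p) := by
        rw [hA, hA', aa, aa]
        have e1 : (p + 1) * (p + 1 - 1) / 2 = p * (p - 1) / 2 + p := by
          rw [Nat.add_sub_cancel]
          have e2 : (p + 1) * p = p * (p - 1) + p * 2 := by
            rcases p with _ | p
            · rfl
            · rw [Nat.add_sub_cancel]; ring
          rw [e2, Nat.add_mul_div_right _ _ (by norm_num)]
        rw [e1]
        ring
      -- the two pieces of the block
      have c1 : Cov (d + 1) 1 ((Lw d g h c).filter fun a => A ≤ a.1 ∧ a.1 < A' ∧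
          a.1 + a.2 ≤ A + d + g) := by
        refine piece h1 (d + 1) 0 _ (fun v => v - g) (fun _ => A)
          (fun v => A + (d + 1 - (v - g))) ?_ ?_ ?_
        · intro b hb
          rw [Finset.mem_filter] at hb
          obtain ⟨h4, h5, h6, h7⟩ := hb
          have h8 := (hLw b h4).2.1
          simp only [zero_mul, zero_add]
          omega
        · intro b hb
          rw [Finset.mem_filter] at hb
          obtain ⟨h4, h5, h6, h7⟩ := hb
          have h8 := (hLw b h4).2.1
          simp only [zero_mul, zero_add]
          omega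
        · intro a ha b hb hab
          rw [Finset.mem_filter] at ha hb
          have h8 := (hLw a ha.1).2.1
          have h9 := (hLw b hb.1).2.1
          simp only [zero_mul, zero_add] at hab ⊢
          omega
      have hup : ∀ a ∈ (Lw d g h c).filter (fun a => A ≤ a.1 ∧ a.1 < A' ∧ A + d + g < a.1 + a.2),
          (d + 1 - h) + p + (a.2 - g) ≤ d := by
        intro a ha
        rw [Finset.mem_filter] at ha
        obtain ⟨h4, h5, h6, h7⟩ := ha
        obtain ⟨-, h8, -, h9⟩ := hLw a h4
        obtain ⟨y, hy⟩ : ∃ y, a.2 = g + y := ⟨a.2 - g, by omega⟩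
        rw [hy, Nat.add_sub_cancel_left] at h9 ⊢
        rw [hy] at h7
        by_contra hcon
        push Not at hcon
        have h10 : h ≤ p + y := by omega
        have h11 : A + d + 1 + (d + 1) * y ≤ a.1 + (d + 2) * y := by nlinarith
        have h12 : (d + 2) * h ≤ (d + 2) * (p + y) := Nat.mul_le_mul_left _ h10
        nlinarith
      have c2 : Cov (d + 1) 1 ((Lw d g h c).filter fun a => A ≤ a.1 ∧ a.1 < A' ∧
          A + d + g < a.1 + a.2) := by
        refine piece h1 (d + 1) 0 _ (fun v => d - ((d + 1 - h) + p + (v - g)))
          (fun v => A + d + 1 - (v - g)) (fun _ => A') ?_ ?_ ?_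
        · intro b hb
          rw [Finset.mem_filter] at hb
          obtain ⟨h4, h5, h6, h7⟩ := hb
          have h8 := (hLw b h4).2.1
          simp only [zero_mul, zero_add]
          omega
        · intro b hb
          have h8 := hup b hb
          rw [Finset.mem_filter] at hb
          obtain ⟨h4, h5, h6, h7⟩ := hb
          have h9 := (hLw b h4).2.1
          simp only [zero_mul, zero_add]
          omega
        · intro a ha b hb hab
          have h8 := hup a ha
          have h9 := hup b hb
          rw [Finset.mem_filter] at ha hb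
          have h10 := (hLw a ha.1).2.1
          have h11 := (hLw b hb.1).2.1
          simp only [zero_mul, zero_add] at hab ⊢
          omega
      have c12 := h2 (d + 1) 1 1 1 1 _ _ (fun a ha b hb => by
        rw [Finset.mem_filter] at ha hb
        have h5 := ha.2.2.2
        have h6 := hb.2.2.2
        omega) c1 c2
      have c3 := h2 (d + 1) (1 + 1) (2 * n) 1 0 _ _ (fun a ha b hb => by
        rw [Finset.mem_union, Finset.mem_filter, Finset.mem_filter] at ha
        rw [Finset.mem_filter] at hb
        have h5 := hb.2
        rcases ha with ha | ha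
        · have h6 := ha.2.2.1
          omega
        · have h6 := ha.2.2.1
          omega) c12 ih'
      have e : 1 + 1 + 2 * n = 2 * (n + 1) := by ring
      rw [e] at c3
      refine h3 _ _ _ _ (fun a ha => ?_) c3
      rw [Finset.mem_filter] at ha
      rw [Finset.mem_union, Finset.mem_union, Finset.mem_filter, Finset.mem_filter,
        Finset.mem_filter]
      by_cases h5 : a.1 < A'
      · left
        by_cases h6 : a.1 + a.2 ≤ A + d + g
        · exact Or.inl ⟨ha.1, ha.2, h5, h6⟩
        · exact Or.inr ⟨ha.1, ha.2, h5, by omega⟩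
      · exact Or.inr ⟨ha.1, by omega⟩
  refine h3 _ _ _ _ (fun a ha => ?_) (key P 0 (by omega))
  rw [Finset.mem_filter]
  exact ⟨ha, by simp [aa]⟩

end Pool.TRO
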